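import Mathlib

/-!
# Growth, Følner functions and the constants `K_g`: definitions

`Γ` is a group with a finite symmetric generating set `S`, `ball S r` is the ball of radius `r`
of the word length, `growth S r` its number of elements, `innerBoundary S D` the set of the
elements `x` of `D` with `s x ∉ D` for some `s ∈ S`, and `Fol S n` the Følner function, the least
number of elements of a finite nonempty `D` with `|∂D| / |D| ≤ 1/n` (and `⊤` if there is none).
For a strictly increasing `g`, `K g` is the infimum of the numbers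
`liminf g⁻¹(Fol S n) / n` over all `(Γ, S)` with `growth S (n-1) ≥ g n` for all `n ≥ 1`.

-/

open Filter

namespace Q29.FK

universe u

section Defs

variable {Γ : Type u} [Group Γ]

/-- The ball of radius `r` of the word length of `S`: the products of at most `r` elements
of `S`. -/
def ball (S : Finset Γ) (r : ℕ) : Set Γ :=
  {x | ∃ l : List Γ, (∀ s ∈ l, s ∈ S) ∧ l.length ≤ r ∧ l.prod = x}

/-- The growth function `γ_S(r) = |B_S(r)|`. -/
noncomputable def growth (S : Finset Γ) (r : ℕ) : ℕ := (ball S r).ncard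

/-- The inner boundary of the finite set `D`. -/
def innerBoundary (S D : Finset Γ) : Set Γ := {x | x ∈ D ∧ ∃ s ∈ S, s * x ∉ D}

/-- The Følner function of `(Γ, S)`, with value `⊤` when there is no finite nonempty `D` with
`|∂D| / |D| ≤ 1/n`. -/
noncomputable def Fol (S : Finset Γ) (n : ℕ) : ℕ∞ :=
  sInf {m : ℕ∞ | ∃ D : Finset Γ, D.Nonempty ∧
    ((innerBoundary S D).ncard : ℝ) / (D.card : ℝ) ≤ 1 / (n : ℝ) ∧ m = (D.card : ℕ∞)}

end Defs

/-- The inverse function of `g`, at the values of a Følner function, with `g⁻¹(∞) = ∞`. -/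
noncomputable def gInv (g : ℝ → ℝ) (t : ℕ∞) : EReal :=
  if t = ⊤ then ⊤ else ((Function.invFun g (t.toNat : ℝ) : ℝ) : EReal)

/-- The constant `K_g`: the infimum of `liminf_n g⁻¹(Føl(n)) / n` over all groups `Γ` with a finite
symmetric generating set `S` such that `γ_S(n-1) ≥ g(n)` for all integers `n ≥ 1`. -/
noncomputable def K (g : ℝ → ℝ) : EReal :=
  sInf {v : EReal | ∃ (Γ : Type u) (_ : Group Γ) (S : Finset Γ),
    (∀ s ∈ S, s⁻¹ ∈ S) ∧ Subgroup.closure (S : Set Γ) = ⊤ ∧
    (∀ n : ℕ, 1 ≤ n → g n ≤ (growth S (n - 1) : ℝ)) ∧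
    v = liminf (fun n : ℕ => gInv g (Fol S n) / ((n : ℝ) : EReal)) atTop}

end Q29.FK
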