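import Pool.Agent.Q29.FK.Lower

/-!
# The lamplighter group: Følner sets and growth
-/

open Filter

namespace Q29.FK

universe u

/-- Elements of the lamplighter group: a finite set of lit lamps and a position. -/
@[ext] structure Lamp : Type u where
  f : Finset ℤ
  k : ℤ

namespace Lamp

/-- shift of a finite set of integers -/
def sh (k : ℤ) (f : Finset ℤ) : Finset ℤ := f.map (Equiv.addRight k).toEmbedding

theorem mem_sh (k : ℤ) (f : Finset ℤ) (i : ℤ) : i ∈ sh k f ↔ i - k ∈ f := by
  simp only [sh, Finset.mem_map_equiv, Equiv.addRight_symm, Equiv.coe_addRight]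
  rw [sub_eq_add_neg]

instance : Group Lamp.{u} where
  mul a b := ⟨symmDiff b.f (sh b.k a.f), a.k + b.k⟩
  one := ⟨∅, 0⟩
  inv a := ⟨sh (-a.k) a.f, -a.k⟩
  mul_assoc := by
    intro a b c
    apply Lamp.ext
    · change symmDiff c.f (sh c.k (symmDiff b.f (sh b.k a.f))) =
        symmDiff (symmDiff c.f (sh c.k b.f)) (sh (b.k + c.k) a.f)
      ext i
      simp only [Finset.mem_symmDiff, mem_sh]
      have : i - c.k - b.k = i - (b.k + c.k) := by ring
      rw [this]
      tauto
    · change a.k + b.k + c.k = a.k + (b.k + c.k)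
      ring
  one_mul := by
    intro a
    apply Lamp.ext
    · change symmDiff a.f (sh a.k ∅) = a.f
      ext i
      simp [Finset.mem_symmDiff, mem_sh]
    · change 0 + a.k = a.k
      ring
  mul_one := by
    intro a
    apply Lamp.ext
    · change symmDiff ∅ (sh 0 a.f) = a.f
      ext i
      simp [Finset.mem_symmDiff, mem_sh]
    · change a.k + 0 = a.k
      ring
  inv_mul_cancel := by
    intro a
    apply Lamp.ext
    · change symmDiff a.f (sh a.k (sh (-a.k) a.f)) = ∅
      ext i
      simp only [Finset.mem_symmDiff, mem_sh]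
      have : i - a.k - -a.k = i := by ring
      rw [this]
      simp
    · change -a.k + a.k = 0
      ring

theorem mul_f (a b : Lamp.{u}) : (a * b).f = symmDiff b.f (sh b.k a.f) := rfl
theorem mul_k (a b : Lamp.{u}) : (a * b).k = a.k + b.k := rfl
theorem one_f : (1 : Lamp.{u}).f = ∅ := rfl
theorem one_k : (1 : Lamp.{u}).k = 0 := rfl
theorem inv_f (a : Lamp.{u}) : (a⁻¹).f = sh (-a.k) a.f := rfl
theorem inv_k (a : Lamp.{u}) : (a⁻¹).k = -a.k := rfl

/-- the step to the right -/
def t : Lamp.{u} := ⟨∅, 1⟩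
/-- the step to the right with a switch -/
def b : Lamp.{u} := ⟨{0}, 1⟩

theorem t_mul (x : Lamp.{u}) : t * x = ⟨x.f, x.k + 1⟩ := by
  apply Lamp.ext
  · rw [mul_f]
    ext i
    simp [Finset.mem_symmDiff, mem_sh, t]
  · rw [mul_k]; simp only [t]; ring

theorem b_mul (x : Lamp.{u}) : b * x = ⟨symmDiff x.f {x.k}, x.k + 1⟩ := by
  apply Lamp.ext
  · rw [mul_f]
    ext i
    simp only [Finset.mem_symmDiff, mem_sh, b, Finset.mem_singleton, sub_eq_zero]
  · rw [mul_k]; simp only [b]; ring

theorem tinv_mul (x : Lamp.{u}) : t⁻¹ * x = ⟨x.f, x.k - 1⟩ := by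
  rw [inv_mul_eq_iff_eq_mul, t_mul]
  simp

theorem binv_mul (x : Lamp.{u}) : b⁻¹ * x = ⟨symmDiff x.f {x.k - 1}, x.k - 1⟩ := by
  rw [inv_mul_eq_iff_eq_mul, b_mul]
  simp

/-- the generating set -/
noncomputable def S : Finset Lamp.{u} := by
  classical
  exact {t, b, t⁻¹, b⁻¹}

theorem mem_S (x : Lamp.{u}) : x ∈ S ↔ x = t ∨ x = b ∨ x = t⁻¹ ∨ x = b⁻¹ := by
  classical
  simp [S]

theorem S_inv : ∀ s ∈ (S : Finset Lamp.{u}), s⁻¹ ∈ (S : Finset Lamp.{u}) := by
  intro s hs
  rw [mem_S] at hs ⊢
  rcases hs with rfl | rfl | rfl | rfl <;> simp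

/-- the word of positive steps -/
def P (f : Finset ℤ) : ℕ → Lamp.{u}
  | 0 => 1
  | j + 1 => (if ((j : ℕ) : ℤ) ∈ f then b else t) * P f j

theorem P_eq (f : Finset ℤ) (j : ℕ) :
    (P f j : Lamp.{u}) = ⟨f.filter (fun i => 0 ≤ i ∧ i < j), j⟩ := by
  induction j with
  | zero =>
    apply Lamp.ext
    · change (∅ : Finset ℤ) = _
      symm
      rw [Finset.filter_eq_empty_iff]
      intro x _ h
      simp only [Nat.cast_zero] at h
      omega
    · rfl
  | succ j ih =>
    rw [P, ih]
    split_ifs with h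
    · rw [b_mul]
      apply Lamp.ext
      · ext i
        simp only [Finset.mem_symmDiff, Finset.mem_filter, Finset.mem_singleton]
        push_cast
        constructor
        · rintro (⟨⟨h1, h2, h3⟩, h4⟩ | ⟨h1, h2⟩)
          · exact ⟨h1, h2, by omega⟩
          · subst h1
            exact ⟨h, by omega, by omega⟩
        · rintro ⟨h1, h2, h3⟩
          by_cases hij : i = j
          · right
            refine ⟨hij, ?_⟩
            rintro ⟨_, _, h4⟩
            omega
          · left
            exact ⟨⟨h1, h2, by omega⟩, hij⟩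
      · simp
    · rw [t_mul]
      apply Lamp.ext
      · ext i
        simp only [Finset.mem_filter]
        push_cast
        constructor
        · rintro ⟨h1, h2, h3⟩
          exact ⟨h1, h2, by omega⟩
        · rintro ⟨h1, h2, h3⟩
          refine ⟨h1, h2, ?_⟩
          rcases (show i < j ∨ i = j by omega) with h4 | h4
          · exact h4
          · subst h4; exact absurd h1 h
      · simp

theorem P_mem_ball (f : Finset ℤ) (j : ℕ) : (P f j : Lamp.{u}) ∈ ball S j := by
  induction j with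
  | zero => exact ⟨[], by simp, by simp, rfl⟩
  | succ j ih =>
    obtain ⟨l, hl, hlen, hprod⟩ := ih
    refine ⟨(if ((j : ℕ) : ℤ) ∈ f then b else t) :: l, ?_, by simpa using hlen, ?_⟩
    · intro s hs
      rw [List.mem_cons] at hs
      rcases hs with rfl | hs
      · rw [mem_S]; split_ifs <;> simp
      · exact hl s hs
    · rw [List.prod_cons, hprod, P]

theorem growth_ge (j : ℕ) : 2 ^ j ≤ growth (S : Finset Lamp.{u}) j := by
  classical
  have h1 : (((Finset.Ico (0 : ℤ) j).powerset.image (fun f => (P f j : Lamp.{u}))).card) = 2 ^ j := by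
    rw [Finset.card_image_of_injOn]
    · simp
    · intro f hf g hg h
      simp only [Finset.coe_powerset, Set.mem_preimage, Set.mem_powerset_iff, Finset.coe_subset]
        at hf hg
      simp only [P_eq, Lamp.mk.injEq, and_true] at h
      have e1 : f.filter (fun i : ℤ => 0 ≤ i ∧ i < j) = f := by
        rw [Finset.filter_eq_self]
        intro x hx
        simpa using hf hx
      have e2 : g.filter (fun i : ℤ => 0 ≤ i ∧ i < j) = g := by
        rw [Finset.filter_eq_self]
        intro x hx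
        simpa using hg hx
      rw [← e1, ← e2, h]
  rw [← h1, growth, ← Set.ncard_coe_finset]
  apply Set.ncard_le_ncard _ (ball_finite S j)
  intro x hx
  simp only [Finset.coe_image, Set.mem_image] at hx
  obtain ⟨f, _, rfl⟩ := hx
  exact P_mem_ball f j

theorem closure_S : Subgroup.closure ((S : Finset Lamp.{u}) : Set Lamp.{u}) = ⊤ := by
  set H := Subgroup.closure ((S : Finset Lamp.{u}) : Set Lamp.{u}) with hH
  have ht : (t : Lamp.{u}) ∈ H := Subgroup.subset_closure (by simp [mem_S])
  have hb : (b : Lamp.{u}) ∈ H := Subgroup.subset_closure (by simp [mem_S])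
  -- moving
  have hmove : ∀ (f : Finset ℤ) (k : ℤ), (⟨f, k⟩ : Lamp.{u}) ∈ H → ∀ j : ℤ,
      (⟨f, k + j⟩ : Lamp.{u}) ∈ H := by
    intro f k hk j
    induction j with
    | zero => simpa using hk
    | succ i ih =>
      have := H.mul_mem ht ih
      rw [t_mul] at this
      simpa [add_assoc] using this
    | pred i ih =>
      have := H.mul_mem (H.inv_mem ht) ih
      rw [tinv_mul] at this
      simpa [add_sub_assoc] using this
  have hall : ∀ (f : Finset ℤ) (k : ℤ), (⟨f, k⟩ : Lamp.{u}) ∈ H := by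
    intro f
    induction f using Finset.induction_on with
    | empty =>
      intro k
      have := hmove ∅ 0 H.one_mem k
      simpa using this
    | insert a f ha ih =>
      intro k
      have h1 := H.mul_mem hb (ih a)
      rw [b_mul] at h1
      have h2 := hmove _ _ h1 (k - a - 1)
      have h3 : symmDiff f {a} = insert a f := by
        ext i
        simp only [Finset.mem_symmDiff, Finset.mem_singleton, Finset.mem_insert]
        constructor
        · rintro (⟨h, _⟩ | ⟨h, _⟩)
          · exact Or.inr h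
          · exact Or.inl h
        · rintro (h | h)
          · subst h; exact Or.inr ⟨rfl, ha⟩
          · exact Or.inl ⟨h, fun h' => ha (h' ▸ h)⟩
      have h4 : a + 1 + (k - a - 1) = k := by ring
      simp only [h3, h4] at h2
      exact h2
  rw [eq_top_iff]
  intro x _
  exact hall x.f x.k

/-- the Følner sets -/
noncomputable def F (m : ℕ) : Finset Lamp.{u} :=
  ((Finset.Ico (0 : ℤ) m).powerset ×ˢ Finset.Ico (0 : ℤ) (m + 1)).map
    ⟨fun p => ⟨p.1, p.2⟩, fun p q h => by
      simp only [Lamp.mk.injEq] at h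
      exact Prod.ext h.1 h.2⟩

theorem F_card (m : ℕ) : (F m : Finset Lamp.{u}).card = 2 ^ m * (m + 1) := by
  simp [F]

theorem mem_F (m : ℕ) (x : Lamp.{u}) :
    x ∈ F m ↔ (∀ i ∈ x.f, 0 ≤ i ∧ i < m) ∧ 0 ≤ x.k ∧ x.k < m + 1 := by
  simp only [F, Finset.mem_map, Finset.mem_product, Finset.mem_powerset, 
    Prod.exists, Finset.mem_Ico]
  constructor
  · rintro ⟨f, k, ⟨h1, h2⟩, rfl⟩
    exact ⟨fun i hi => by simpa using h1 hi, h2⟩
  · rintro ⟨h1, h2⟩
    exact ⟨x.f, x.k, ⟨fun i hi => by simpa using h1 i hi, h2⟩, rfl⟩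

theorem bd_F (m : ℕ) : innerBoundary S (F m : Finset Lamp.{u}) ⊆
    {x | x ∈ (F m : Finset Lamp.{u}) ∧ (x.k = 0 ∨ x.k = m)} := by
  rintro x ⟨hx, s, hs, hsx⟩
  refine ⟨hx, ?_⟩
  by_contra hcon
  push Not at hcon
  obtain ⟨hk0, hkm⟩ := hcon
  apply hsx
  rw [mem_F] at hx
  obtain ⟨hf, h0, hm⟩ := hx
  rw [mem_S] at hs
  rcases hs with rfl | rfl | rfl | rfl
  · rw [t_mul, mem_F]
    exact ⟨hf, by dsimp only; omega, by dsimp only; omega⟩
  · rw [b_mul, mem_F]
    refine ⟨?_, by dsimp only; omega, by dsimp only; omega⟩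
    intro i hi
    simp only [Finset.mem_symmDiff, Finset.mem_singleton] at hi
    rcases hi with ⟨hi, _⟩ | ⟨hi, _⟩
    · exact hf i hi
    · omega
  · rw [tinv_mul, mem_F]
    exact ⟨hf, by dsimp only; omega, by dsimp only; omega⟩
  · rw [binv_mul, mem_F]
    refine ⟨?_, by dsimp only; omega, by dsimp only; omega⟩
    intro i hi
    simp only [Finset.mem_symmDiff, Finset.mem_singleton] at hi
    rcases hi with ⟨hi, _⟩ | ⟨hi, _⟩
    · exact hf i hi
    · omega

theorem bd_F_card (m : ℕ) : (innerBoundary S (F m : Finset Lamp.{u})).ncard ≤ 2 * 2 ^ m := by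
  classical
  set E : Finset Lamp.{u} := ((Finset.Ico (0 : ℤ) m).powerset ×ˢ ({0, (m : ℤ)} : Finset ℤ)).image
    (fun p => ⟨p.1, p.2⟩) with hE
  have hsub : innerBoundary S (F m : Finset Lamp.{u}) ⊆ (E : Set Lamp.{u}) := by
    intro x hx
    obtain ⟨h1, h2⟩ := bd_F m hx
    rw [mem_F] at h1
    rw [hE]
    simp only [Finset.coe_image, Set.mem_image, Finset.mem_coe, Finset.mem_product,
      Finset.mem_powerset, Finset.mem_insert, Finset.mem_singleton, Prod.exists]
    exact ⟨x.f, x.k, ⟨fun i hi => by simpa using h1.1 i hi, h2⟩, rfl⟩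
  have h1 := Set.ncard_le_ncard hsub (Finset.finite_toSet E)
  rw [Set.ncard_coe_finset] at h1
  have h2 : E.card ≤ 2 ^ m * 2 := by
    calc E.card ≤ ((Finset.Ico (0 : ℤ) m).powerset ×ˢ ({0, (m : ℤ)} : Finset ℤ)).card :=
          Finset.card_image_le
      _ ≤ 2 ^ m * 2 := by
        rw [Finset.card_product]
        refine Nat.mul_le_mul (by simp) Finset.card_le_two
  omega

theorem Fol_le (n : ℕ) (hn : 1 ≤ n) :
    Fol (S : Finset Lamp.{u}) n ≤ ((n * 4 ^ n : ℕ) : ℕ∞) := by
  apply sInf_le
  refine ⟨F (2 * n - 1), ?_, ?_, ?_⟩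
  · rw [← Finset.card_pos, F_card]
    positivity
  · have h1 : ((innerBoundary S (F (2 * n - 1) : Finset Lamp.{u})).ncard : ℝ) ≤
        2 * 2 ^ (2 * n - 1) := by exact_mod_cast bd_F_card (2 * n - 1)
    have h2 : ((F (2 * n - 1) : Finset Lamp.{u}).card : ℝ) = 2 ^ (2 * n - 1) * (2 * n) := by
      rw [F_card]
      have : 2 * n - 1 + 1 = 2 * n := by omega
      rw [this]; push_cast; ring
    have hn' : (0 : ℝ) < n := by exact_mod_cast hn
    rw [h2, div_le_div_iff₀ (by positivity) hn']
    nlinarith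
  · rw [F_card]
    have h3 : 2 * n - 1 + 1 = 2 * n := by omega
    have h4 : 4 ^ n = 2 ^ (2 * n - 1) * 2 := by
      rw [← pow_succ, h3, pow_mul]; norm_num
    congr 1
    rw [h3, h4]; ring

end Lamp

end Q29.FK
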