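import Pool.Agent.Q29.FK.Defs

/-!
# The inequality `growth S (2n-2) ≤ n * Fol S n`
-/

open Filter

namespace Q29.FK

universe u

section Lower

variable {Γ : Type u} [Group Γ] [DecidableEq Γ]

/-- the elements `x` of `D` with `g x ∉ D` -/
def ex (D : Finset Γ) (g : Γ) : Finset Γ := D.filter fun x => g * x ∉ D

theorem ex_inv (D : Finset Γ) (g : Γ) : (ex D g⁻¹).card = (ex D g).card := by
  have h1 : (ex D g).card + (D.filter fun x => g * x ∈ D).card = D.card := by
    have := Finset.card_filter_add_card_filter_not (s := D) (fun x => g * x ∈ D)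
    rw [ex]; omega
  have h2 : (ex D g⁻¹).card + (D.filter fun x => g⁻¹ * x ∈ D).card = D.card := by
    have := Finset.card_filter_add_card_filter_not (s := D) (fun x => g⁻¹ * x ∈ D)
    rw [ex]; omega
  have h3 : (D.filter fun x => g * x ∈ D).card = (D.filter fun x => g⁻¹ * x ∈ D).card := by
    apply Finset.card_bij (fun x _ => g * x)
    · intro a ha
      simp only [Finset.mem_filter] at ha ⊢
      refine ⟨ha.2, by simpa using ha.1⟩
    · intro a _ b _ h
      exact mul_left_cancel h
    · intro b hb
      simp only [Finset.mem_filter] at hb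
      refine ⟨g⁻¹ * b, ?_, by simp⟩
      simp only [Finset.mem_filter]
      exact ⟨hb.2, by simpa using hb.1⟩
  omega

/-- the inner boundary as a finset -/
def bd (S D : Finset Γ) : Finset Γ := D.filter fun x => ∃ s ∈ S, s * x ∉ D

theorem bd_card (S D : Finset Γ) : (innerBoundary S D).ncard = (bd S D).card := by
  rw [← Set.ncard_coe_finset]
  congr 1
  ext x
  simp [innerBoundary, bd]

theorem ex_mul (D : Finset Γ) (g h : Γ) : (ex D (g * h)).card ≤ (ex D g).card + (ex D h).card := by
  have hsub : ex D (g * h) ⊆ ex D h ∪ Finset.image (fun y : Γ => h⁻¹ * y) (ex D g) := by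
    intro x hx
    simp only [ex, Finset.mem_filter, Finset.mem_union, Finset.mem_image] at hx ⊢
    by_cases hh : h * x ∈ D
    · right
      exact ⟨h * x, ⟨hh, by rw [← mul_assoc]; exact hx.2⟩, by simp⟩
    · left; exact ⟨hx.1, hh⟩
  calc (ex D (g * h)).card ≤ (ex D h ∪ Finset.image (fun y : Γ => h⁻¹ * y) (ex D g)).card :=
        Finset.card_le_card hsub
    _ ≤ (ex D h).card + (Finset.image (fun y : Γ => h⁻¹ * y) (ex D g)).card := Finset.card_union_le _ _
    _ ≤ (ex D h).card + (ex D g).card := Nat.add_le_add_left Finset.card_image_le _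
    _ = _ := add_comm _ _

theorem ex_le_bd {S D : Finset Γ} {s : Γ} (hs : s ∈ S) : ex D s ⊆ bd S D := by
  intro x hx
  simp only [ex, bd, Finset.mem_filter] at hx ⊢
  exact ⟨hx.1, s, hs, hx.2⟩

/-- two steps cost only one boundary -/
theorem ex_two {S D : Finset Γ} (hS : ∀ s ∈ S, s⁻¹ ∈ S) {s t : Γ} (hs : s ∈ S) (ht : t ∈ S) :
    (ex D (s * t)).card ≤ (bd S D).card := by
  have hsub : ex D (s * t) ⊆ ex D t ∪ Finset.image (fun y : Γ => t⁻¹ * y) (bd S D \ ex D t⁻¹) := by
    intro x hx
    simp only [ex, bd, Finset.mem_filter, Finset.mem_union, Finset.mem_image,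
      Finset.mem_sdiff] at hx ⊢
    by_cases hh : t * x ∈ D
    · right
      refine ⟨t * x, ⟨⟨hh, s, hs, by rw [← mul_assoc]; exact hx.2⟩, ?_⟩, by simp⟩
      rintro ⟨_, h⟩
      exact h (by simpa using hx.1)
    · left; exact ⟨hx.1, hh⟩
  have h1 : (bd S D \ ex D t⁻¹).card = (bd S D).card - (ex D t).card := by
    rw [Finset.card_sdiff_of_subset (ex_le_bd (hS t ht)), ex_inv]
  have h2 : (ex D t).card ≤ (bd S D).card := Finset.card_le_card (ex_le_bd ht)
  calc (ex D (s * t)).card ≤ (ex D t ∪ Finset.image (fun y : Γ => t⁻¹ * y) (bd S D \ ex D t⁻¹)).card :=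
        Finset.card_le_card hsub
    _ ≤ (ex D t).card + (Finset.image (fun y : Γ => t⁻¹ * y) (bd S D \ ex D t⁻¹)).card :=
        Finset.card_union_le _ _
    _ ≤ (ex D t).card + (bd S D \ ex D t⁻¹).card := Nat.add_le_add_left Finset.card_image_le _
    _ = (bd S D).card := by omega

theorem ex_list {S D : Finset Γ} (hS : ∀ s ∈ S, s⁻¹ ∈ S) :
    ∀ (k : ℕ) (l : List Γ), (∀ s ∈ l, s ∈ S) → l.length ≤ 2 * k →
      (ex D l.prod).card ≤ k * (bd S D).card := by
  intro k
  induction k with
  | zero =>
    intro l _ hlen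
    have : l = [] := List.length_eq_zero_iff.mp (by omega)
    subst this
    simp [ex]
  | succ k ih =>
    intro l hl hlen
    match l, hl, hlen with
    | [], _, _ => simp +contextual [ex]
    | [s], hl, _ =>
      have hs : s ∈ S := hl s (by simp)
      have := Finset.card_le_card (ex_le_bd (D := D) hs)
      simp only [List.prod_cons, List.prod_nil, mul_one]
      nlinarith [Nat.zero_le (k * (bd S D).card)]
    | s :: t :: l', hl, hlen =>
      have hs : s ∈ S := hl s (by simp)
      have ht : t ∈ S := hl t (by simp)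
      have h1 := ih l' (fun x hx => hl x (by simp [hx])) (by simp at hlen; omega)
      have h2 := ex_mul D (s * t) l'.prod
      have h3 := ex_two (D := D) hS hs ht
      simp only [List.prod_cons]
      rw [← mul_assoc]
      nlinarith

omit [DecidableEq Γ] in
theorem ball_finite (S : Finset Γ) (r : ℕ) : (ball S r).Finite := by
  induction r with
  | zero =>
    apply (Set.finite_singleton (1 : Γ)).subset
    rintro x ⟨l, _, hlen, rfl⟩
    have : l = [] := List.length_eq_zero_iff.mp (by omega)
    subst this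
    simp
  | succ r ih =>
    apply (ih.union ((S.finite_toSet).mul ih)).subset
    rintro x ⟨l, hl, hlen, rfl⟩
    match l, hl, hlen with
    | [], _, _ => exact Or.inl ⟨[], by simp, by simp, by simp⟩
    | s :: l', hl, hlen =>
      refine Or.inr ?_
      simp only [List.prod_cons]
      exact Set.mul_mem_mul (by simpa using hl s (by simp))
        ⟨l', fun x hx => hl x (by simp [hx]), by simp at hlen; omega, rfl⟩

/-- The counting inequality. -/
theorem growth_le {S D : Finset Γ} (hS : ∀ s ∈ S, s⁻¹ ∈ S) (hD : D.Nonempty) {n : ℕ} (hn : 1 ≤ n)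
    (h : n * (bd S D).card ≤ D.card) : growth S (2 * n - 2) ≤ n * D.card := by
  classical
  set B : Finset Γ := (ball_finite S (2 * n - 2)).toFinset with hB
  have hgr : growth S (2 * n - 2) = B.card := by
    rw [growth, Set.ncard_eq_toFinset_card _ (ball_finite S (2 * n - 2))]
  rw [hgr]
  by_contra hcon
  push Not at hcon
  have hDpos : 0 < D.card := hD.card_pos
  -- upper bound
  have hup : ∑ g ∈ B, (ex D g).card ≤ B.card * ((n - 1) * (bd S D).card) := by
    rw [← smul_eq_mul, ← Finset.sum_const]
    apply Finset.sum_le_sum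
    intro g hg
    rw [hB, Set.Finite.mem_toFinset] at hg
    obtain ⟨l, hl, hlen, rfl⟩ := hg
    exact ex_list hS (n - 1) l hl (by omega)
  -- lower bound
  have hlow : D.card * (B.card - D.card) ≤ ∑ g ∈ B, (ex D g).card := by
    have h1 : ∑ g ∈ B, (ex D g).card = ∑ x ∈ D, (B.filter fun g => g * x ∉ D).card := by
      simp only [ex, Finset.card_filter]
      rw [Finset.sum_comm]
    rw [h1, ← smul_eq_mul, ← Finset.sum_const]
    apply Finset.sum_le_sum
    intro x _
    have h2 := Finset.card_filter_add_card_filter_not (s := B) (fun g => g * x ∈ D)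
    have h3 : (B.filter fun g => g * x ∈ D).card ≤ D.card := by
      apply Finset.card_le_card_of_injOn (fun g => g * x)
      · intro g hg
        simp only [Finset.coe_filter, Set.mem_ofPred_eq] at hg
        exact hg.2
      · intro a _ b _ h
        exact mul_right_cancel h
    omega
  have hBD : D.card ≤ B.card := by nlinarith
  obtain ⟨k, rfl⟩ : ∃ k, n = k + 1 := ⟨n - 1, by omega⟩
  obtain ⟨b, hb⟩ := Nat.exists_eq_add_of_le hBD
  simp only [Nat.add_sub_cancel] at hup
  rw [hb] at hup hlow hcon
  simp only [Nat.add_sub_cancel_left] at hlow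
  -- (k+1)*D*b ≤ (D+b)*k*(k+1)*bd ≤ (D+b)*k*D
  have h5 : D.card * b ≤ (D.card + b) * (k * (bd S D).card) := hlow.trans hup
  have h6 : (k + 1) * (D.card * b) ≤ (D.card + b) * (k * D.card) := by
    calc (k + 1) * (D.card * b) ≤ (k + 1) * ((D.card + b) * (k * (bd S D).card)) := by gcongr
      _ = (D.card + b) * (k * ((k + 1) * (bd S D).card)) := by ring
      _ ≤ (D.card + b) * (k * D.card) := by gcongr
  have h7 : D.card * ((k + 1) * b) ≤ D.card * ((D.card + b) * k) := by nlinarith
  have h8 := Nat.le_of_mul_le_mul_left h7 hDpos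
  nlinarith

end Lower

end Q29.FK
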