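import Pool.Agent.Q29.FK.Lamp

/-!
# `K g = 2` for `g(x) = 2^(x-1)`
-/

open Filter Topology

namespace Q29.FK

universe u

/-- the function `2^(x-1)` -/
noncomputable def g2 (x : ℝ) : ℝ := (2 : ℝ) ^ (x - 1)

theorem g2_inj : Function.Injective g2 := by
  intro x y h
  have h1 : Real.logb 2 (g2 x) = Real.logb 2 (g2 y) := by rw [h]
  simp only [g2] at h1
  rw [Real.logb_rpow (by norm_num) (by norm_num), Real.logb_rpow (by norm_num) (by norm_num)] at h1
  linarith

theorem inv_g2 {y : ℝ} (hy : 0 < y) : Function.invFun g2 y = 1 + Real.logb 2 y := by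
  have h1 : g2 (1 + Real.logb 2 y) = y := by
    simp only [g2, add_sub_cancel_left]
    exact Real.rpow_logb (by norm_num) (by norm_num) hy
  have h2 := Function.leftInverse_invFun g2_inj (1 + Real.logb 2 y)
  rwa [h1] at h2

theorem gInv_coe {m : ℕ} (hm : 0 < m) :
    gInv g2 (m : ℕ∞) = ((1 + Real.logb 2 m : ℝ) : EReal) := by
  have h : (m : ℕ∞) ≠ ⊤ := ENat.natCast_ne_top m
  rw [gInv, if_neg h, ENat.toNat_natCast, inv_g2 (by exact_mod_cast hm)]

section

variable {Γ : Type u} [Group Γ]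

/-- the value of the Følner function -/
theorem Fol_cases (S : Finset Γ) (n : ℕ) : Fol S n = ⊤ ∨ ∃ D : Finset Γ, D.Nonempty ∧
    ((innerBoundary S D).ncard : ℝ) / (D.card : ℝ) ≤ 1 / (n : ℝ) ∧ Fol S n = (D.card : ℕ∞) := by
  by_cases h : {m : ℕ∞ | ∃ D : Finset Γ, D.Nonempty ∧
    ((innerBoundary S D).ncard : ℝ) / (D.card : ℝ) ≤ 1 / (n : ℝ) ∧ m = (D.card : ℕ∞)}.Nonempty
  · right
    obtain ⟨D, h1, h2, h3⟩ := csInf_mem h
    exact ⟨D, h1, h2, h3⟩
  · left
    rw [Set.not_nonempty_iff_eq_empty] at h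
    rw [Fol, h, sInf_empty]

/-- The lower bound for the Følner function. -/
theorem growth_le_Fol {S : Finset Γ} (hS : ∀ s ∈ S, s⁻¹ ∈ S) {n : ℕ} (hn : 1 ≤ n) :
    ((growth S (2 * n - 2) : ℕ) : ℕ∞) ≤ n * Fol S n := by
  classical
  rcases Fol_cases S n with h | ⟨D, h1, h2, h3⟩
  · rw [h, ENat.mul_top (by exact_mod_cast (show n ≠ 0 by omega))]
    exact le_top
  · rw [h3]
    have hD : (0 : ℝ) < D.card := by exact_mod_cast h1.card_pos
    have hn' : (0 : ℝ) < n := by exact_mod_cast hn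
    rw [div_le_div_iff₀ hD hn', bd_card] at h2
    have h4 : n * (bd S D).card ≤ D.card := by
      have : ((n * (bd S D).card : ℕ) : ℝ) ≤ (D.card : ℝ) := by push_cast; linarith
      exact_mod_cast this
    exact_mod_cast growth_le hS h1 hn h4

theorem lower_pt {S : Finset Γ} (hS : ∀ s ∈ S, s⁻¹ ∈ S)
    (hg : ∀ n : ℕ, 1 ≤ n → g2 n ≤ (growth S (n - 1) : ℝ)) {n : ℕ} (hn : 1 ≤ n) :
    (((2 * n - 1 - Real.logb 2 n) / n : ℝ) : EReal) ≤ gInv g2 (Fol S n) / ((n : ℝ) : EReal) := by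
  have hn' : (0 : ℝ) < n := by exact_mod_cast hn
  rcases Fol_cases S n with h | ⟨D, h1, h2, h3⟩
  · rw [h, gInv, if_pos rfl, EReal.top_div_of_pos_ne_top (by exact_mod_cast hn')
      (EReal.coe_ne_top _)]
    exact le_top
  · have hkey := growth_le_Fol hS hn
    rw [h3] at hkey
    rw [h3, gInv_coe h1.card_pos, ← EReal.coe_div]
    have hD : (0 : ℝ) < D.card := by exact_mod_cast h1.card_pos
    have hk : (growth S (2 * n - 2) : ℝ) ≤ n * D.card := by exact_mod_cast hkey
    have h5 := hg (2 * n - 1) (by omega)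
    have h6 : 2 * n - 1 - 1 = 2 * n - 2 := by omega
    rw [h6] at h5
    have h7 : ((2 * n - 1 : ℕ) : ℝ) = 2 * n - 1 := by
      rw [Nat.cast_sub (by omega)]; push_cast; ring
    rw [h7] at h5
    have h8 : g2 (2 * n - 1) ≤ n * D.card := h5.trans hk
    have h9 : Real.logb 2 (g2 (2 * n - 1)) ≤ Real.logb 2 (n * D.card) := by
      apply Real.logb_le_logb_of_le (by norm_num) _ h8
      exact Real.rpow_pos_of_pos (by norm_num) _
    rw [Real.logb_mul hn'.ne' hD.ne'] at h9
    simp only [g2] at h9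
    rw [Real.logb_rpow (by norm_num) (by norm_num)] at h9
    apply EReal.coe_le_coe
    gcongr
    linarith

end

theorem tendsto_log : Tendsto (fun n : ℕ => Real.logb 2 n / n) atTop (𝓝 0) := by
  have h1 : Tendsto (fun x : ℝ => Real.log x / x) atTop (𝓝 0) := by
    have := Real.isLittleO_log_id_atTop.tendsto_div_nhds_zero
    simpa using this
  have h2 := (h1.comp tendsto_natCast_atTop_atTop).div_const (Real.log 2)
  simp only [zero_div] at h2
  refine h2.congr fun n => ?_
  simp only [Function.comp, Real.logb]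
  ring

theorem tendsto_lower :
    Tendsto (fun n : ℕ => (((2 * n - 1 - Real.logb 2 n) / n : ℝ) : EReal)) atTop
      (𝓝 ((2 : ℝ) : EReal)) := by
  rw [EReal.tendsto_coe]
  have h1 : Tendsto (fun n : ℕ => (1 : ℝ) / n) atTop (𝓝 0) := tendsto_one_div_atTop_nhds_zero_nat
  have h2 := (tendsto_const_nhds (x := (2 : ℝ))).sub (h1.add tendsto_log)
  simp only [add_zero, sub_zero] at h2
  refine h2.congr' ?_
  filter_upwards [eventually_ge_atTop 1] with n hn
  have hn' : (n : ℝ) ≠ 0 := by positivity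
  field_simp
  ring

theorem tendsto_upper :
    Tendsto (fun n : ℕ => (((1 + Real.logb 2 n + 2 * n) / n : ℝ) : EReal)) atTop
      (𝓝 ((2 : ℝ) : EReal)) := by
  rw [EReal.tendsto_coe]
  have h1 : Tendsto (fun n : ℕ => (1 : ℝ) / n) atTop (𝓝 0) := tendsto_one_div_atTop_nhds_zero_nat
  have h2 := (tendsto_const_nhds (x := (2 : ℝ))).add (h1.add tendsto_log)
  simp only [add_zero] at h2
  refine h2.congr' ?_
  filter_upwards [eventually_ge_atTop 1] with n hn
  have hn' : (n : ℝ) ≠ 0 := by positivity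
  field_simp
  ring

theorem lower {Γ : Type u} [Group Γ] {S : Finset Γ} (hS : ∀ s ∈ S, s⁻¹ ∈ S)
    (hg : ∀ n : ℕ, 1 ≤ n → g2 n ≤ (growth S (n - 1) : ℝ)) :
    ((2 : ℝ) : EReal) ≤ liminf (fun n : ℕ => gInv g2 (Fol S n) / ((n : ℝ) : EReal)) atTop := by
  rw [← tendsto_lower.liminf_eq]
  refine liminf_le_liminf ?_ (by isBoundedDefault) (by isBoundedDefault)
  filter_upwards [eventually_ge_atTop 1] with n hn
  exact lower_pt hS hg hn

theorem upper : liminf (fun n : ℕ => gInv g2 (Fol (Lamp.S : Finset Lamp.{u}) n) /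
    ((n : ℝ) : EReal)) atTop ≤ ((2 : ℝ) : EReal) := by
  rw [← tendsto_upper.liminf_eq]
  refine liminf_le_liminf ?_ (by isBoundedDefault) (by isBoundedDefault)
  filter_upwards [eventually_ge_atTop 1] with n hn
  have hn' : (0 : ℝ) < n := by exact_mod_cast hn
  have h := Lamp.Fol_le.{u} n hn
  rcases Fol_cases (Lamp.S : Finset Lamp.{u}) n with h' | ⟨D, h1, h2, h3⟩
  · rw [h'] at h
    exact absurd (top_le_iff.mp h) (ENat.natCast_ne_top _)
  · rw [h3] at h ⊢
    have h4 : D.card ≤ n * 4 ^ n := by exact_mod_cast h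
    rw [gInv_coe h1.card_pos, ← EReal.coe_div]
    have hD : (0 : ℝ) < D.card := by exact_mod_cast h1.card_pos
    have h5 : Real.logb 2 D.card ≤ Real.logb 2 (n * 4 ^ n) := by
      apply Real.logb_le_logb_of_le (by norm_num) hD
      exact_mod_cast h4
    have h6 : Real.logb 2 ((n : ℝ) * 4 ^ n) = Real.logb 2 n + 2 * n := by
      rw [Real.logb_mul hn'.ne' (by positivity)]
      congr 1
      have : (4 : ℝ) ^ n = 2 ^ (2 * n) := by rw [pow_mul]; norm_num
      rw [this, Real.logb_pow, Real.logb_self_eq_one (by norm_num)]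
      push_cast; ring
    rw [h6] at h5
    apply EReal.coe_le_coe
    apply div_le_div_of_nonneg_right _ hn'.le
    linarith

theorem K_g2 : K.{u} g2 = 2 := by
  have two : ((2 : ℝ) : EReal) = 2 := rfl
  rw [← two]
  apply le_antisymm
  · refine le_trans (sInf_le ?_) upper.{u}
    refine ⟨Lamp.{u}, inferInstance, Lamp.S, Lamp.S_inv, Lamp.closure_S, ?_, rfl⟩
    intro n hn
    have h1 := Lamp.growth_ge.{u} (n - 1)
    have h2 : g2 n = 2 ^ (n - 1) := by
      simp only [g2]
      rw [← Real.rpow_natCast, Nat.cast_sub hn, Nat.cast_one]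
    rw [h2]
    exact_mod_cast h1
  · apply le_sInf
    rintro v ⟨Γ, _, S, hS, _, hg, rfl⟩
    exact lower hS hg

end Q29.FK
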